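import Pool.Agent.H65.NT.Ring

/-!
# [H92 VS] extensions with virtually solvable kernel
-/

set_option autoImplicit false

namespace Pool.Agent.H92.VS

open Pool.Agent.H98.FJ

/-- the group has a solvable subgroup of finite index -/
def VirtSolv (K : Type) [Group K] : Prop := ∃ N : Subgroup K, N.FiniteIndex ∧ Group.IsSolvable N

/-- the product of two solvable normal subgroups is solvable -/
theorem solv_sup {K : Type} [Group K] (M M' : Subgroup K) [M.Normal] (h : Group.IsSolvable M) (h' : Group.IsSolvable M') :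
    Group.IsSolvable (M ⊔ M' : Subgroup K) := by
  let g : (M ⊔ M' : Subgroup K) →* M'.map (QuotientGroup.mk' M) :=
    ((QuotientGroup.mk' M).comp (M ⊔ M').subtype).codRestrict _ (by
      rintro ⟨x, hx⟩
      show QuotientGroup.mk' M x ∈ M'.map (QuotientGroup.mk' M)
      have h1 : QuotientGroup.mk' M x ∈ (M ⊔ M').map (QuotientGroup.mk' M) := Subgroup.mem_map_of_mem _ hx
      rw [Subgroup.map_sup] at h1
      have h2 : M.map (QuotientGroup.mk' M) = ⊥ := by
        rw [Subgroup.map_eq_bot_iff, QuotientGroup.ker_mk']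
      rwa [h2, bot_sup_eq] at h1)
  have hr : Group.IsSolvable (M'.map (QuotientGroup.mk' M)) :=
    Group.isSolvable_of_surjective ((QuotientGroup.mk' M).subgroupMap_surjective M')
  refine Group.isSolvable_of_ker_le_range (Subgroup.inclusion (le_sup_left : M ≤ M ⊔ M')) g ?_
  rintro ⟨x, hx⟩ hg
  have h1 : QuotientGroup.mk' M x = 1 := congrArg Subtype.val (MonoidHom.mem_ker.1 hg)
  rw [QuotientGroup.mk'_apply, QuotientGroup.eq_one_iff] at h1
  exact ⟨⟨x, h1⟩, rfl⟩

/-- the largest solvable normal subgroup of a virtually solvable group -/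
theorem exists_radical {K : Type} [Group K] (h : VirtSolv K) : ∃ M : Subgroup K, M.Normal ∧ M.FiniteIndex ∧
    Group.IsSolvable M ∧ ∀ M' : Subgroup K, M'.Normal → Group.IsSolvable M' → M' ≤ M := by
  classical
  obtain ⟨N, hN, hs⟩ := h
  let P : ℕ → Prop := fun m => ∃ M : Subgroup K, M.Normal ∧ Group.IsSolvable M ∧ M.index = m ∧ m ≠ 0
  have hP : ∃ m, P m := by
    refine ⟨N.normalCore.index, N.normalCore, inferInstance, ?_, rfl, Subgroup.FiniteIndex.index_ne_zero⟩
    exact Group.isSolvable_of_isSolvable_injective (Subgroup.inclusion_injective (Subgroup.normalCore_le N))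
  obtain ⟨M, h1, h2, h3, h4⟩ := Nat.find_spec hP
  refine ⟨M, h1, ⟨by rw [h3]; exact h4⟩, h2, fun M' h5 h6 => ?_⟩
  have h7 : Group.IsSolvable (M ⊔ M' : Subgroup K) := solv_sup M M' h2 h6
  have h8 := Subgroup.relIndex_mul_index (le_sup_left : M ≤ M ⊔ M')
  have h9 : (M ⊔ M').index ≠ 0 := by
    intro h0
    rw [h0, mul_zero] at h8
    exact h4 (h3 ▸ h8.symm)
  have h10 : Nat.find hP ≤ (M ⊔ M').index := Nat.find_min' hP ⟨M ⊔ M', inferInstance, h7, rfl, h9⟩
  rw [h3] at h8
  have h11 : M.relIndex (M ⊔ M') = 1 := by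
    have h12 : M.relIndex (M ⊔ M') ≠ 0 := by
      intro h0
      rw [h0, zero_mul] at h8
      exact h4 h8.symm
    rcases Nat.lt_or_ge 1 (M.relIndex (M ⊔ M')) with h13 | h13
    · have h14 : (M ⊔ M').index * 2 ≤ M.relIndex (M ⊔ M') * (M ⊔ M').index := by
        rw [mul_comm]
        exact Nat.mul_le_mul_right _ h13
      omega
    · omega
  exact le_sup_right.trans (Subgroup.relIndex_eq_one.1 h11)

/-- finite kernels -/
theorem fin_ext {C : (G : Type) → [Group G] → Prop} (hC : Inherits C) (hE : Extension C)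
    (hS : ∀ (G : Type) [Group G], Group.IsSolvable G → C G) {G Q : Type} [Group G] [Group Q] (p : G →* Q)
    (hk : Finite p.ker) (hQ : C Q) : C G := by
  have hr : C p.range := hC.sub Q p.range hQ
  refine hE G p.range p.rangeRestrict p.rangeRestrict_surjective hr fun V hV => ?_
  obtain ⟨v, hv⟩ := hV
  let r : V.comap p.rangeRestrict →* V := p.rangeRestrict.subgroupComap V
  have hW : ((Subgroup.zpowers v).comap r).FiniteIndex := by
    rw [Subgroup.finiteIndex_iff, Subgroup.index_comap]
    have h := Subgroup.isFiniteRelIndex_of_finiteIndex (H := Subgroup.zpowers v) (K := r.range)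
    exact h.relIndex_ne_zero
  -- the action on the kernel
  let c : V.comap p.rangeRestrict →* MulAut p.ker := (MulAut.conjNormal (H := p.ker)).comp (V.comap p.rangeRestrict).subtype
  have hfin : Finite (MulAut p.ker) := inferInstance
  have hc : c.ker.FiniteIndex := by
    have := Finite.of_injective _ (QuotientGroup.kerLift_injective c)
    exact Subgroup.finiteIndex_of_finite_quotient
  let D : Subgroup (V.comap p.rangeRestrict) := c.ker ⊓ (Subgroup.zpowers v).comap r
  have hD : D.FiniteIndex := inferInstance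
  refine hC.index _ D hD (hS _ ?_)
  have hcyc : Group.IsSolvable (Subgroup.zpowers v) := by
    refine Group.isSolvable_of_comm fun a b => ?_
    obtain ⟨a, i, rfl⟩ := a
    obtain ⟨b, j, rfl⟩ := b
    apply Subtype.ext
    show v ^ i * v ^ j = v ^ j * v ^ i
    rw [← _root_.zpow_add, ← _root_.zpow_add, add_comm]
  let f : D →* Subgroup.zpowers v :=
    { toFun := fun x => ⟨r x.1, x.2.2⟩
      map_one' := Subtype.ext (map_one r)
      map_mul' := fun x y => Subtype.ext (map_mul r x.1 y.1) }
  have hf : ∀ x : D, f x = 1 → p x.1.1 = 1 := by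
    intro x hx
    have h1 : r x.1 = 1 := congrArg Subtype.val hx
    have h2 : p.rangeRestrict x.1.1 = 1 := congrArg Subtype.val h1
    exact congrArg Subtype.val h2
  have hker : Group.IsSolvable f.ker := by
    refine Group.isSolvable_of_comm fun a b => ?_
    apply Subtype.ext
    apply Subtype.ext
    apply Subtype.ext
    have h1 : c a.1.1 = 1 := a.1.2.1
    have h2 : c a.1.1 ⟨b.1.1.1, hf b.1 b.2⟩ = ⟨b.1.1.1, hf b.1 b.2⟩ := by
      rw [h1]
      rfl
    have h3 : a.1.1.1 * b.1.1.1 * a.1.1.1⁻¹ = b.1.1.1 := congrArg Subtype.val h2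
    show a.1.1.1 * b.1.1.1 = b.1.1.1 * a.1.1.1
    exact mul_inv_eq_iff_eq_mul.1 h3
  exact Group.isSolvable_of_ker_le_range f.ker.subtype f (by rw [Subgroup.range_subtype])

/-- virtually solvable kernels -/
theorem virt_ext {C : (G : Type) → [Group G] → Prop} (hC : Inherits C) (hE : Extension C)
    (hS : ∀ (G : Type) [Group G], Group.IsSolvable G → C G) {G Q : Type} [Group G] [Group Q] (p : G →* Q)
    (hk : VirtSolv p.ker) (hQ : C Q) : C G := by
  obtain ⟨M, hM1, hM2, hM3, hM4⟩ := exists_radical hk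
  let R : Subgroup G := M.map p.ker.subtype
  have hRk : R ≤ p.ker := by
    rintro _ ⟨m, -, rfl⟩
    exact m.2
  have hR : R.Normal := by
    refine ⟨?_⟩
    rintro _ ⟨m, hm, rfl⟩ g
    let α : MulAut p.ker := MulAut.conjNormal g
    have h1 : (M.map α.toMonoidHom).Normal := hM1.map _ α.surjective
    have h2 : Group.IsSolvable (M.map α.toMonoidHom) :=
      Group.isSolvable_of_surjective (α.toMonoidHom.subgroupMap_surjective M)
    have h3 : α m ∈ M := hM4 _ h1 h2 (Subgroup.mem_map_of_mem _ hm)
    exact ⟨α m, h3, rfl⟩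
  have hRs : Group.IsSolvable R := Group.isSolvable_of_surjective (p.ker.subtype.subgroupMap_surjective M)
  let q : G →* G ⧸ R := QuotientGroup.mk' R
  let pb : G ⧸ R →* Q := QuotientGroup.lift R p hRk
  have hfin : Finite pb.ker := by
    have hf : Finite (p.ker ⧸ M) := Subgroup.finite_quotient_of_finiteIndex
    let t : p.ker ⧸ M → pb.ker := fun x => Quotient.liftOn' x (fun a => (⟨q a.1, by
      show pb (q a.1) = 1
      exact a.2⟩ : pb.ker)) (by
        intro a b h
        apply Subtype.ext
        show (QuotientGroup.mk a.1 : G ⧸ R) = QuotientGroup.mk b.1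
        rw [QuotientGroup.eq]
        exact ⟨a⁻¹ * b, QuotientGroup.leftRel_apply.1 h, rfl⟩)
    have ht : Function.Surjective t := by
      rintro ⟨y, hy⟩
      obtain ⟨a, rfl⟩ := QuotientGroup.mk_surjective y
      have ha : p a = 1 := hy
      exact ⟨((⟨a, ha⟩ : p.ker) : p.ker ⧸ M), rfl⟩
    exact Finite.of_surjective t ht
  have h1 : C (G ⧸ R) := fin_ext hC hE hS pb hfin hQ
  refine Pool.Agent.H65.NT.solv_ext hC hE hS q ?_ h1
  have h2 : q.ker = R := QuotientGroup.ker_mk' R
  rw [h2]
  exact hRs

end Pool.Agent.H92.VS
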